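import Pool.Agent.H75.OM.TC

/-!
# Circuits for the random bits of the generator
-/

set_option autoImplicit false

namespace Pool.Agent.H14.OMN

open Finset Pool.Agent.H75.OM Pool.Agent.H70.EI

theorem Cm_mono {n s s' : ℕ} {f g : List Bool → Bool} (h : Cm n s f) (hs : s ≤ s')
    (hfg : ∀ x : List Bool, x.length = n → f x = g x) : Cm n s' g := by
  obtain ⟨C, h1, h2, h3, h4⟩ := h
  exact ⟨C, h1, h2, h3.trans hs, fun x hx => (h4 x hx).trans (hfg x hx)⟩

/-- LFY: circuits for the random bits. -/
theorem pf_LFY (h1 : T_CMC) (h2 : T_CMB) (h3 : T_GEN) : T_LFY := by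
  intro s ω l M z m i hm
  have hN : 2 ≤ s + ω + 2 := by omega
  by_cases hi : i < ω + 1
  · have hg : ∀ j < s + ω + 2, Cm m 2 (fun w : List Bool =>
        if j < m then w.getD j false else decide (j = m ∨ j = s + 1 + i)) := by
      intro j _
      by_cases hj : j < m
      · refine Cm_mono (h2.1 m j) le_rfl ?_
        intro x _
        rw [if_pos hj]
      · refine Cm_mono (h2.2.1 m (decide (j = m ∨ j = s + 1 + i))) le_rfl ?_
        intro x _
        rw [if_neg hj]
    have h4 := h1 m (s + ω + 2) _ (fun _ => 2) _ _ (h3 l (s + ω + 2) M z) hg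
    refine Cm_mono h4 ?_ ?_
    · rw [Finset.sum_const, Finset.card_range, smul_eq_mul]
      have e1 : 2 ^ (2 * l + 10) = 4 * 2 ^ (2 * l + 8) := by
        rw [show 2 * l + 10 = (2 * l + 8) + 2 by ring, pow_add]
        ring
      have e2 : 1 ≤ 2 ^ (2 * l + 8) := Nat.one_le_two_pow
      rw [e1]
      generalize 2 ^ (2 * l + 8) = P at e2 ⊢
      generalize s + ω + 2 = N at hN ⊢
      nlinarith
    · intro x hx
      unfold ex2
      rw [dif_pos ⟨by omega, hi⟩]
      congr 1
      funext j
      unfold enc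
      have hj : (j : ℕ) < s + ω + 2 := j.2
      rw [List.getD_eq_getElem _ _ (by simp)]
      rw [List.getElem_map, List.getElem_range]
      simp only [hx]
  · refine Cm_mono (h2.2.1 m false) ?_ ?_
    · have e2 : 1 ≤ 2 ^ (2 * l + 10) := Nat.one_le_two_pow
      nlinarith
    · intro x _
      unfold ex2
      rw [dif_neg]
      intro hc
      exact hi hc.2

end Pool.Agent.H14.OMN
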