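import Pool.Agent.H75.OM.TC

/-!
# An oracle with small circuits does not help
-/

set_option autoImplicit false

namespace Pool.Agent.H14.OMN

open Finset Pool.Agent.H75.OM

theorem length_flatten {t : ℕ} : ∀ ws : List (List Bool), (∀ w ∈ ws, w.length = t) →
    ws.flatten.length = ws.length * t
  | [], _ => by simp
  | w :: ws, h => by
    rw [List.flatten_cons, List.length_append, h w (by simp),
      length_flatten ws fun v hv => h v (by simp [hv]), List.length_cons]
    ring

/-- SMB: an oracle which has small circuits does not help. -/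
theorem pf_SMB (h1 : T_ALG) (h2 : T_SUB) : T_SMB := by
  rintro O P s k n L ⟨C, t, hC, ht, hL⟩ hO
  obtain ⟨C', hn, hs, hc⟩ := h2 O P s (n + k * t) C hC hO
  refine ⟨C', t, hn, hs, ht.trans (Nat.le_mul_of_pos_right _ (Nat.succ_pos _)), ?_⟩
  intro x hx
  rw [hL x hx]
  unfold Pool.Agent.H75.OM.Acc
  apply h1
  intro ws hk hw
  rw [hc]
  rw [List.length_append, length_flatten ws hw, hx, hk]

end Pool.Agent.H14.OMN
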